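import Mathlib

set_option autoImplicit false

/-!
# Deterministic versus randomized complexity of locally checkable problems: the gap is not bounded
by any fixed power of `log n`
-/

namespace Pool.Agent.Results.MP_559647_lc.GapUnbounded

open Filter

/-! ### The LOCAL model -/

/-- The possible states of knowledge of a node after `t` rounds, if every node starts with an
element of `I`: the previous state together with the set of the messages (previous states) received
from the neighbours. -/
def Info (I : Type) : ℕ → Type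
  | 0 => I
  | t + 1 => Info I t × Set (Info I t)

/-- The state of the node `v` after `t` rounds on the graph `G` with initial knowledge `x`. In every
round every node sends its whole state to all its neighbours. -/
def info {V I : Type} (G : SimpleGraph V) (x : V → I) : (t : ℕ) → V → Info I t
  | 0, v => x v
  | t + 1, v => (info G x t v, {s | ∃ u, G.Adj v u ∧ info G x t u = s})

/-- A graph problem: for every graph, the valid assignments of outputs to the nodes. The names of
the nodes do not matter. -/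
structure GraphProblem (Out : Type) where
  /-- the valid assignments of outputs -/
  valid : (n : ℕ) → SimpleGraph (Fin n) → (Fin n → Out) → Prop
  /-- validity does not depend on the names of the nodes -/
  invariant : ∀ (n : ℕ) (G G' : SimpleGraph (Fin n)) (e : G ≃g G') (y : Fin n → Out),
    valid n G (fun v => y (e v)) → valid n G' y

/-- `id` assigns pairwise distinct identifiers below `n ^ c` to the `n` nodes. -/
def IsID (n c : ℕ) (id : Fin n → ℕ) : Prop := Function.Injective id ∧ ∀ v, id v < n ^ c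

variable {Out : Type}

/-- Some deterministic algorithm with `T` rounds solves `P` on all graphs with `n` nodes and all
identifiers below `n ^ c`. -/
def DetSolves (P : GraphProblem Out) (c n T : ℕ) : Prop :=
  ∃ F : Info ℕ T → Out, ∀ (G : SimpleGraph (Fin n)) (id : Fin n → ℕ), IsID n c id →
    P.valid n G (fun v => F (info G id T v))

/-- Some randomized algorithm with `T` rounds solves `P` on all graphs with `n` nodes and all
identifiers below `n ^ c`, with probability at least `1 - 1 / n ^ d`. Every node has its own string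
of `b` independent fair coin tosses. -/
def RandSolves (P : GraphProblem Out) (c d n T : ℕ) : Prop :=
  ∃ (b : ℕ) (F : Info (ℕ × (Fin b → Bool)) T → Out),
    ∀ (G : SimpleGraph (Fin n)) (id : Fin n → ℕ), IsID n c id →
      1 - 1 / (n : ℝ) ^ d ≤
        (Nat.card {r : Fin n → Fin b → Bool //
          P.valid n G (fun v => F (info G (fun u => (id u, r u)) T v))} : ℝ) /
        (Nat.card (Fin n → Fin b → Bool) : ℝ)

/-- The deterministic complexity of `P`. -/
noncomputable def detComplexity (P : GraphProblem Out) (c n : ℕ) : ℕ := sInf {T | DetSolves P c n T}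

/-- The randomized complexity of `P`. -/
noncomputable def randComplexity (P : GraphProblem Out) (c d n : ℕ) : ℕ :=
  sInf {T | RandSolves P c d n T}

/-- Some deterministic algorithm with `p n` rounds checks the solutions of `P` on the graphs with
`n` nodes: every node starts with its identifier and its output, and all nodes accept if and only if
the outputs are valid. -/
def Checkable (P : GraphProblem Out) (c : ℕ) (p : ℕ → ℕ) : Prop :=
  ∀ n, ∃ F : Info (ℕ × Out) (p n) → Bool, ∀ (G : SimpleGraph (Fin n)) (id : Fin n → ℕ),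
    IsID n c id → ∀ y : Fin n → Out,
      (∀ v, F (info G (fun u => (id u, y u)) (p n) v) = true) ↔ P.valid n G y

/-- The problem `P` is locally checkable: its solutions can be checked in `poly (log n)` rounds. -/
def LocallyCheckable (P : GraphProblem Out) : Prop :=
  ∃ p : ℕ → ℕ, (∃ K : ℕ, ∀ n, p n ≤ K * (Nat.log 2 n + 1) ^ K) ∧ ∀ c, Checkable P c p

/-! ### The problem -/

/-- the nodes at distance exactly `t` from `v` -/
def sphere {V : Type} (G : SimpleGraph V) (t : ℕ) (v : V) : Set V := {u | G.edist v u = t}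

/-- Both bits occur among the outputs at distance exactly `t` from `v`, if there are at least `m`
nodes at this distance. -/
def Split {V : Type} (G : SimpleGraph V) (t m : ℕ) (y : V → Bool) : Prop :=
  ∀ v, m ≤ (sphere G t v).ncard → ∀ b : Bool, ∃ u ∈ sphere G t v, y u = b

theorem edist_le_iff {V : Type} (G : SimpleGraph V) (v u : V) (t : ℕ) :
    G.edist v u ≤ t ↔ ∃ p : G.Walk v u, p.length ≤ t := by
  constructor
  · intro h
    have h1 : G.edist v u ≠ ⊤ := ne_top_of_le_ne_top (ENat.natCast_ne_top t) h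
    obtain ⟨p, hp⟩ := SimpleGraph.exists_walk_of_edist_ne_top h1
    refine ⟨p, ?_⟩
    rw [← hp] at h
    exact_mod_cast h
  · rintro ⟨p, hp⟩
    exact (SimpleGraph.edist_le p).trans (by exact_mod_cast hp)

theorem mem_sphere_succ {V : Type} (G : SimpleGraph V) (v u : V) (t : ℕ) :
    u ∈ sphere G (t + 1) v ↔
      (∃ p : G.Walk v u, p.length ≤ t + 1) ∧ ¬ ∃ p : G.Walk v u, p.length ≤ t := by
  rw [← edist_le_iff, ← edist_le_iff]
  show G.edist v u = ((t + 1 : ℕ) : ℕ∞) ↔ _
  generalize G.edist v u = x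
  induction x using ENat.recTopCoe with
  | top =>
    constructor
    · intro h
      exact absurd h.symm (ENat.natCast_ne_top (t + 1))
    · rintro ⟨h, -⟩
      exact absurd (top_le_iff.1 h) (ENat.natCast_ne_top (t + 1))
  | coe k =>
    norm_cast
    omega

theorem sphere_iso {V W : Type} {G : SimpleGraph V} {G' : SimpleGraph W} (e : G ≃g G') (t : ℕ)
    (v : V) : sphere G' t (e v) = e '' sphere G t v := by
  ext w
  obtain ⟨u, rfl⟩ := e.surjective w
  rw [e.injective.mem_set_image]
  have h1 : ∀ k : ℕ, G'.edist (e v) (e u) ≤ k ↔ G.edist v u ≤ k := by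
    intro k
    rw [edist_le_iff, edist_le_iff]
    constructor
    · rintro ⟨p, hp⟩
      refine ⟨(p.map e.symm.toHom).copy (e.symm_apply_apply v) (e.symm_apply_apply u), ?_⟩
      simpa using hp
    · rintro ⟨p, hp⟩
      exact ⟨p.map e.toHom, by simpa using hp⟩
  have h2 : G'.edist (e v) (e u) = G.edist v u := by
    apply le_antisymm
    · induction hx : G.edist v u using ENat.recTopCoe with
      | top => exact le_top
      | coe k => exact (h1 k).2 hx.le
    · induction hx : G'.edist (e v) (e u) using ENat.recTopCoe with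
      | top => exact le_top
      | coe k => exact (h1 k).1 hx.le
  show G'.edist (e v) (e u) = t ↔ G.edist v u = t
  rw [h2]

/-- The graph problem. The first bit of the output has to be split on the spheres of radius
`(log n) ^ C + 1` with more than `(log n) ^ 2` elements, and the second bit has to tell whether
the node has a neighbour. -/
def splitting (C : ℕ) : GraphProblem (Bool × Bool) where
  valid n G y := Split G (Nat.log 2 n ^ C + 1) (Nat.log 2 n ^ 2 + 1) (fun v => (y v).1) ∧
    ∀ v, (y v).2 = true ↔ ∃ u, G.Adj v u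
  invariant := by
    intro n G G' e y h
    refine ⟨?_, ?_⟩
    · intro v' hv b
      obtain ⟨v, rfl⟩ := e.surjective v'
      rw [sphere_iso, Set.ncard_image_of_injective _ e.injective] at hv
      obtain ⟨u, hu, hb⟩ := h.1 v hv b
      refine ⟨e u, ?_, hb⟩
      rw [sphere_iso]
      exact ⟨u, hu, rfl⟩
    · intro v'
      obtain ⟨v, rfl⟩ := e.surjective v'
      rw [h.2 v]
      constructor
      · rintro ⟨u, hu⟩
        exact ⟨e u, e.map_adj_iff.2 hu⟩
      · rintro ⟨u', hu⟩
        obtain ⟨u, rfl⟩ := e.surjective u'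
        exact ⟨u, e.map_adj_iff.1 hu⟩

/-! ### Local checking -/

/-- the initial knowledge of a node -/
def root {I : Type} : (t : ℕ) → Info I t → I
  | 0, s => s
  | t + 1, s => root t s.1

theorem root_info {V I : Type} (G : SimpleGraph V) (x : V → I) (t : ℕ) (v : V) :
    root t (info G x t v) = x v := by
  induction t with
  | zero => rfl
  | succ t ih => exact ih

/-- the initial knowledge of all nodes seen -/
def reach {I : Type} : (t : ℕ) → Info I t → Set I
  | 0, s => {s}
  | t + 1, s => reach t s.1 ∪ {a | ∃ s' ∈ s.2, a ∈ reach t s'}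

theorem mem_reach {V I : Type} (G : SimpleGraph V) (x : V → I) (t : ℕ) (v : V) (a : I) :
    a ∈ reach t (info G x t v) ↔ ∃ u, (∃ p : G.Walk v u, p.length ≤ t) ∧ x u = a := by
  induction t generalizing v with
  | zero =>
    show a = x v ↔ _
    constructor
    · rintro rfl
      exact ⟨v, ⟨SimpleGraph.Walk.nil, le_rfl⟩, rfl⟩
    · rintro ⟨u, ⟨p, hp⟩, rfl⟩
      cases p with
      | nil => rfl
      | cons h p => simp at hp
  | succ t ih =>
    show (a ∈ reach t (info G x t v) ∨ ∃ s', (∃ u, G.Adj v u ∧ info G x t u = s') ∧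
      a ∈ reach t s') ↔ _
    rw [ih]
    constructor
    · rintro (⟨u, ⟨p, hp⟩, rfl⟩ | ⟨s', ⟨u, hu, rfl⟩, hs⟩)
      · exact ⟨u, ⟨p, by omega⟩, rfl⟩
      · rw [ih] at hs
        obtain ⟨w, ⟨p, hp⟩, rfl⟩ := hs
        exact ⟨w, ⟨SimpleGraph.Walk.cons hu p, by simp; omega⟩, rfl⟩
    · rintro ⟨u, ⟨p, hp⟩, rfl⟩
      cases p with
      | nil => exact Or.inl ⟨v, ⟨SimpleGraph.Walk.nil, by simp⟩, rfl⟩
      | @cons _ w _ h p =>
        refine Or.inr ⟨_, ⟨w, h, rfl⟩, ?_⟩
        rw [ih]
        exact ⟨u, ⟨p, by simp at hp; omega⟩, rfl⟩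

open Classical in
theorem checkable (C c : ℕ) : Checkable (splitting C) c (fun n => Nat.log 2 n ^ C + 1) := by
  intro n
  obtain ⟨q, hq⟩ : ∃ q, q = Nat.log 2 n ^ C := ⟨_, rfl⟩
  show ∃ F : Info (ℕ × Bool × Bool) (Nat.log 2 n ^ C + 1) → Bool,
    ∀ (G : SimpleGraph (Fin n)) (id : Fin n → ℕ), IsID n c id → ∀ y : Fin n → Bool × Bool,
      (∀ v, F (info G (fun u => (id u, y u)) (Nat.log 2 n ^ C + 1) v) = true) ↔
      (splitting C).valid n G y
  rw [← hq]
  refine ⟨fun s => decide ((Nat.log 2 n ^ 2 + 1 ≤ (reach (q + 1) s \ reach q s.1).ncard →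
    ∀ b : Bool, ∃ a ∈ reach (q + 1) s \ reach q s.1, a.2.1 = b) ∧
    ((root (q + 1) s).2.2 = true ↔ s.2.Nonempty)), ?_⟩
  intro G id hid y
  have hinj : Function.Injective (fun u => (id u, y u)) := by
    intro u w h
    exact hid.1 (congrArg Prod.fst h)
  have hset : ∀ v, reach (q + 1) (info G (fun u => (id u, y u)) (q + 1) v) \
      reach q (info G (fun u => (id u, y u)) (q + 1) v).1 =
      (fun u => (id u, y u)) '' sphere G (q + 1) v := by
    intro v
    ext a
    rw [Set.mem_sdiff, mem_reach]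
    have h1 : (info G (fun u => (id u, y u)) (q + 1) v).1 = info G (fun u => (id u, y u)) q v := rfl
    rw [h1, mem_reach]
    constructor
    · rintro ⟨⟨u, hu, rfl⟩, hn⟩
      refine ⟨u, ?_, rfl⟩
      rw [mem_sphere_succ]
      exact ⟨hu, fun h => hn ⟨u, h, rfl⟩⟩
    · rintro ⟨u, hu, rfl⟩
      rw [mem_sphere_succ] at hu
      refine ⟨⟨u, hu.1, rfl⟩, ?_⟩
      rintro ⟨w, hw, h⟩
      have := hinj h
      subst this
      exact hu.2 hw
  have hnb : ∀ v, (info G (fun u => (id u, y u)) (q + 1) v).2.Nonempty ↔ ∃ u, G.Adj v u := by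
    intro v
    constructor
    · rintro ⟨s, u, hu, -⟩
      exact ⟨u, hu⟩
    · rintro ⟨u, hu⟩
      exact ⟨_, u, hu, rfl⟩
  have key : ∀ v, (decide ((Nat.log 2 n ^ 2 + 1 ≤
      (reach (q + 1) (info G (fun u => (id u, y u)) (q + 1) v) \
      reach q (info G (fun u => (id u, y u)) (q + 1) v).1).ncard →
      ∀ b : Bool, ∃ a ∈ reach (q + 1) (info G (fun u => (id u, y u)) (q + 1) v) \
      reach q (info G (fun u => (id u, y u)) (q + 1) v).1, a.2.1 = b) ∧
      ((root (q + 1) (info G (fun u => (id u, y u)) (q + 1) v)).2.2 = true ↔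
      (info G (fun u => (id u, y u)) (q + 1) v).2.Nonempty)) = true) ↔
      ((Nat.log 2 n ^ 2 + 1 ≤ (sphere G (q + 1) v).ncard → ∀ b : Bool,
      ∃ u ∈ sphere G (q + 1) v, (y u).1 = b) ∧ ((y v).2 = true ↔ ∃ u, G.Adj v u)) := by
    intro v
    rw [decide_eq_true_iff, hset, Set.ncard_image_of_injective _ hinj, hnb, root_info]
    simp only [Set.exists_mem_image]
  show (∀ v, _) ↔ (Split G (Nat.log 2 n ^ C + 1) _ _ ∧ _)
  rw [← hq, forall_congr' key, forall_and]
  rfl

/-! ### The lower bound for deterministic algorithms -/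

theorem info_iso {V W I : Type} {G : SimpleGraph V} {G' : SimpleGraph W} (e : G ≃g G') (x : W → I)
    (t : ℕ) (v : V) : info G (fun u => x (e u)) t v = info G' x t (e v) := by
  induction t generalizing v with
  | zero => rfl
  | succ t ih =>
    show ((info G (fun u => x (e u)) t v, {s | ∃ u, G.Adj v u ∧ info G (fun u => x (e u)) t u = s}) :
      Info I t × Set (Info I t)) = (info G' x t (e v), {s | ∃ u, G'.Adj (e v) u ∧ info G' x t u = s})
    rw [ih]
    congr 1
    ext s
    constructor
    · rintro ⟨u, hu, rfl⟩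
      exact ⟨e u, e.map_adj_iff.2 hu, (ih u).symm⟩
    · rintro ⟨u', hu, rfl⟩
      obtain ⟨u, rfl⟩ := e.surjective u'
      exact ⟨u, e.map_adj_iff.1 hu, ih u⟩

/-- a path with `l` nodes -/
def path (l : ℕ) : SimpleGraph (Fin l) where
  Adj i i' := i.val + 1 = i'.val ∨ i'.val + 1 = i.val
  symm := ⟨fun _ _ h => h.symm⟩
  loopless := ⟨fun i h => by rcases h with h | h <;> omega⟩

/-- `m` paths with `l` nodes, whose first nodes are joined to a centre, and `k` isolated nodes -/
def spider (m l k : ℕ) : SimpleGraph ((Fin m × Fin l) ⊕ Fin (k + 1)) where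
  Adj
    | Sum.inl a, Sum.inl b => a.1 = b.1 ∧ (path l).Adj a.2 b.2
    | Sum.inl a, Sum.inr c => a.2.val = 0 ∧ c = 0
    | Sum.inr c, Sum.inl a => a.2.val = 0 ∧ c = 0
    | Sum.inr _, Sum.inr _ => False
  symm := by
    constructor
    rintro (a | a) (b | b) h
    · exact ⟨h.1.symm, h.2.symm⟩
    · exact h
    · exact h
    · exact h
  loopless := by
    constructor
    rintro (a | a) h
    · exact (path l).loopless.irrefl _ h.2
    · exact h

/-- far from the centre, a node of the spider only sees its path -/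
theorem info_spider {I : Type} (m l k : ℕ) (x : (Fin m × Fin l) ⊕ Fin (k + 1) → I) (j : Fin m)
    (t : ℕ) (i : Fin l) (h : t ≤ i.val) :
    info (spider m l k) x t (Sum.inl (j, i)) = info (path l) (fun i => x (Sum.inl (j, i))) t i := by
  induction t generalizing i with
  | zero => rfl
  | succ t ih =>
    show ((info (spider m l k) x t (Sum.inl (j, i)),
      {s | ∃ u, (spider m l k).Adj (Sum.inl (j, i)) u ∧ info (spider m l k) x t u = s}) :
      Info I t × Set (Info I t)) = (info (path l) (fun i => x (Sum.inl (j, i))) t i,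
      {s | ∃ u, (path l).Adj i u ∧ info (path l) (fun i => x (Sum.inl (j, i))) t u = s})
    rw [ih i (by omega)]
    congr 1
    ext s
    constructor
    · rintro ⟨u | u, hu, rfl⟩
      · obtain ⟨j', i'⟩ := u
        obtain ⟨h1, h2⟩ := hu
        simp only at h1 h2
        subst h1
        refine ⟨i', h2, (ih i' ?_).symm⟩
        rcases h2 with h2 | h2 <;> omega
      · have : i.val = 0 := hu.1
        omega
    · rintro ⟨i', hi, rfl⟩
      refine ⟨Sum.inl (j, i'), ⟨rfl, hi⟩, ih i' ?_⟩
      rcases hi with h2 | h2 <;> omega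

/-- there is a walk of length `i + 1` from the centre to the node `i` of a path -/
theorem walk_spider (m l k : ℕ) (j : Fin m) (i : ℕ) (hi : i < l) :
    ∃ p : (spider m l k).Walk (Sum.inr 0) (Sum.inl (j, ⟨i, hi⟩)), p.length = i + 1 := by
  induction i with
  | zero =>
    exact ⟨SimpleGraph.Walk.cons (v := Sum.inl (j, ⟨0, hi⟩)) ⟨rfl, rfl⟩ SimpleGraph.Walk.nil, rfl⟩
  | succ i ih =>
    obtain ⟨p, hp⟩ := ih (by omega)
    have hadj : (spider m l k).Adj (Sum.inl (j, ⟨i, by omega⟩)) (Sum.inl (j, ⟨i + 1, hi⟩)) :=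
      ⟨rfl, Or.inl rfl⟩
    exact ⟨p.concat hadj, by rw [SimpleGraph.Walk.length_concat, hp]⟩

/-- distance from the centre -/
def height {m l k : ℕ} : (Fin m × Fin l) ⊕ Fin (k + 1) → ℕ
  | Sum.inl a => a.2.val + 1
  | Sum.inr _ => 0

theorem height_le {m l k : ℕ} (u v : (Fin m × Fin l) ⊕ Fin (k + 1)) (p : (spider m l k).Walk u v) :
    height v ≤ height u + p.length := by
  induction p with
  | nil => simp
  | @cons u w v h p ih =>
    have h1 : height w ≤ height u + 1 := by
      rcases u with u | u <;> rcases w with w | w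
      · obtain ⟨-, h2⟩ := h
        show w.2.val + 1 ≤ u.2.val + 1 + 1
        rcases h2 with h2 | h2 <;> omega
      · show 0 ≤ _
        omega
      · have : w.2.val = 0 := h.1
        show w.2.val + 1 ≤ 0 + 1
        omega
      · exact absurd h id
    rw [SimpleGraph.Walk.length_cons]
    omega

theorem sphere_spider (m q k : ℕ) :
    sphere (spider m (q + 1) k) (q + 1) (Sum.inr 0) =
      Set.range (fun j : Fin m => Sum.inl (j, ⟨q, by omega⟩)) := by
  ext u
  rw [mem_sphere_succ]
  constructor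
  · rintro ⟨⟨p, hp⟩, hn⟩
    rcases u with ⟨j, i⟩ | c
    · refine ⟨j, ?_⟩
      obtain ⟨p', hp'⟩ := walk_spider m (q + 1) k j i.val i.isLt
      have h1 : ¬ p'.length ≤ q := fun h => hn ⟨p', h⟩
      have h2 : i = ⟨q, by omega⟩ := by
        apply Fin.ext
        show i.val = q
        have := i.isLt
        omega
      rw [← h2]
    · exfalso
      by_cases hc : c = 0
      · subst hc
        exact hn ⟨SimpleGraph.Walk.nil, by simp⟩
      · have h1 : ∀ (a b : (Fin m × Fin (q + 1)) ⊕ Fin (k + 1)) (p : (spider m (q + 1) k).Walk a b),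
            b = Sum.inr c → a = Sum.inr c := by
          intro a b p
          induction p with
          | nil => exact id
          | @cons a w b h p ih =>
            intro hb
            have := ih hb
            subst this
            rcases a with a | a
            · exact absurd h.2 hc
            · exact absurd h id
        have h2 := h1 _ _ p rfl
        exact hc (Sum.inr_injective h2).symm
  · rintro ⟨j, rfl⟩
    refine ⟨?_, ?_⟩
    · obtain ⟨p, hp⟩ := walk_spider m (q + 1) k j q (by omega)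
      exact ⟨p, hp.le⟩
    · rintro ⟨p, hp⟩
      have := height_le (Sum.inr 0) (Sum.inl (j, (⟨q, by omega⟩ : Fin (q + 1)))) p
      have h1 : height (k := k) (Sum.inl (j, (⟨q, by omega⟩ : Fin (q + 1)))) = q + 1 := rfl
      have h2 : height (m := m) (l := q + 1) (Sum.inr (0 : Fin (k + 1))) = 0 := rfl
      omega

theorem pigeonhole (m : ℕ) (f : Fin (2 * m) → Bool) :
    ∃ (b : Bool) (σ : Fin m → Fin (2 * m)), Function.Injective σ ∧ ∀ j, f (σ j) = b := by
  classical
  have h1 : Fintype.card {j // f j = true} + Fintype.card {j // f j = false} = 2 * m := by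
    rw [Fintype.card_subtype, Fintype.card_subtype]
    have h2 : (Finset.univ.filter fun j => f j = false) =
        (Finset.univ.filter fun j => ¬ f j = true) := by
      ext j
      simp
    rw [h2, Finset.card_filter_add_card_filter_not]
    simp
  have h3 : ∃ b, m ≤ Fintype.card {j // f j = b} := by
    by_contra hcon
    push Not at hcon
    have := hcon true
    have := hcon false
    omega
  obtain ⟨b, hb⟩ := h3
  have h4 : Nonempty (Fin m ↪ {j // f j = b}) :=
    Function.Embedding.nonempty_of_card_le (by simpa using hb)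
  obtain ⟨g⟩ := h4
  exact ⟨b, fun j => (g j).1, fun i j h => g.injective (Subtype.ext h), fun j => (g j).2⟩

theorem lower (C c n T : ℕ) (hc : 2 ≤ c) (hT : T ≤ Nat.log 2 n ^ C)
    (hn : (Nat.log 2 n ^ 2 + 1) * (Nat.log 2 n ^ C + 1) + 1 ≤ n) :
    ¬ DetSolves (splitting C) c n T := by
  rintro ⟨F, hF⟩
  obtain ⟨q, hq⟩ : ∃ q, q = Nat.log 2 n ^ C := ⟨_, rfl⟩
  obtain ⟨m, hm⟩ : ∃ m, m = Nat.log 2 n ^ 2 + 1 := ⟨_, rfl⟩
  rw [← hq] at hT hn
  rw [← hm] at hn
  obtain ⟨k, hk⟩ : ∃ k, n = m * (q + 1) + (k + 1) := ⟨n - (m * (q + 1) + 1), by omega⟩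
  -- the labelled paths
  let S : ℕ → Fin (q + 1) → ℕ := fun j i => j * (q + 1) + i.val
  obtain ⟨b, σ, hσ, hb⟩ := pigeonhole m
    (fun j => (F (info (path (q + 1)) (S j.val) T ⟨q, by omega⟩)).1)
  have hcard : Fintype.card (Fin n) = Fintype.card ((Fin m × Fin (q + 1)) ⊕ Fin (k + 1)) := by
    simp [hk]
  let e : Fin n ≃ (Fin m × Fin (q + 1)) ⊕ Fin (k + 1) := Fintype.equivOfCardEq hcard
  let I : (Fin m × Fin (q + 1)) ⊕ Fin (k + 1) → ℕ := fun u =>
    match u with
    | Sum.inl a => S (σ a.1).val a.2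
    | Sum.inr c => 2 * m * (q + 1) + c.val
  have hSlt : ∀ (j : Fin (2 * m)) (i : Fin (q + 1)), S j.val i < 2 * m * (q + 1) := by
    intro j i
    show j.val * (q + 1) + i.val < 2 * m * (q + 1)
    have h1 := i.isLt
    have h2 : j.val + 1 ≤ 2 * m := j.isLt
    calc j.val * (q + 1) + i.val < (j.val + 1) * (q + 1) := by rw [add_mul]; omega
      _ ≤ 2 * m * (q + 1) := Nat.mul_le_mul_right _ h2
  have hI : Function.Injective I := by
    rintro (⟨j, i⟩ | c1) (⟨j', i'⟩ | c2) h
    · have h0 : (σ j).val * (q + 1) + i.val = (σ j').val * (q + 1) + i'.val := h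
      have h1 := i.isLt
      have h2 := i'.isLt
      have h3 : (σ j).val = (σ j').val := by
        have e1 : ((σ j).val * (q + 1) + i.val) / (q + 1) = (σ j).val := by
          rw [mul_comm, Nat.mul_add_div (by omega), Nat.div_eq_of_lt h1, add_zero]
        have e2 : ((σ j').val * (q + 1) + i'.val) / (q + 1) = (σ j').val := by
          rw [mul_comm, Nat.mul_add_div (by omega), Nat.div_eq_of_lt h2, add_zero]
        rw [← e1, ← e2, h0]
      have h4 : i.val = i'.val := by
        rw [h3] at h0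
        omega
      have h5 : j = j' := hσ (Fin.ext h3)
      rw [h5, Fin.ext h4]
    · exfalso
      have h0 : S (σ j).val i = 2 * m * (q + 1) + c2.val := h
      have := hSlt (σ j) i
      omega
    · exfalso
      have h0 : 2 * m * (q + 1) + c1.val = S (σ j').val i' := h
      have := hSlt (σ j') i'
      omega
    · have h0 : 2 * m * (q + 1) + c1.val = 2 * m * (q + 1) + c2.val := h
      have : c1 = c2 := Fin.ext (by omega)
      rw [this]
  have hn2 : 2 * n ≤ n ^ c := by
    have h1 : n ^ 2 ≤ n ^ c := Nat.pow_le_pow_right (by omega) hc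
    have h2 : 2 * n ≤ n ^ 2 := by
      rw [pow_two]
      apply Nat.mul_le_mul_right
      have h3 : 1 ≤ m := by omega
      have h4 : 1 ≤ m * (q + 1) := Nat.mul_pos (by omega) (by omega)
      omega
    omega
  have hid : IsID n c (fun v => I (e v)) := by
    refine ⟨hI.comp e.injective, fun v => ?_⟩
    show I (e v) < n ^ c
    rcases e v with ⟨j, i⟩ | c1
    · have h1 := hSlt (σ j) i
      show S (σ j).val i < n ^ c
      have : 2 * m * (q + 1) = 2 * (m * (q + 1)) := by ring
      omega
    · show 2 * m * (q + 1) + c1.val < n ^ c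
      have := c1.isLt
      have : 2 * m * (q + 1) = 2 * (m * (q + 1)) := by ring
      omega
  let G : SimpleGraph (Fin n) := (spider m (q + 1) k).comap e
  let f : G ≃g spider m (q + 1) k := SimpleGraph.Iso.comap e (spider m (q + 1) k)
  have hval := (hF G (fun v => I (e v)) hid).1
  rw [← hq, ← hm] at hval
  have hsph : sphere G (q + 1) (e.symm (Sum.inr 0)) =
      Set.range (fun j : Fin m => e.symm (Sum.inl (j, (⟨q, by omega⟩ : Fin (q + 1))))) := by
    have h1 := sphere_iso f.symm (q + 1) (Sum.inr 0)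
    rw [sphere_spider] at h1
    have h2 : f.symm (Sum.inr 0) = e.symm (Sum.inr 0) := rfl
    rw [h2] at h1
    rw [h1, ← Set.range_comp]
    rfl
  have hnc : m ≤ (sphere G (q + 1) (e.symm (Sum.inr 0))).ncard := by
    rw [hsph, ← Set.image_univ, Set.ncard_image_of_injective, Set.ncard_univ, Nat.card_fin]
    intro j j' h
    have h1 := e.symm.injective h
    have h2 := Sum.inl_injective h1
    exact (Prod.ext_iff.1 h2).1
  obtain ⟨u, hu, hub⟩ := hval _ hnc (!b)
  rw [hsph] at hu
  obtain ⟨j, rfl⟩ := hu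
  have h1 : info G (fun v => I (e v)) T (e.symm (Sum.inl (j, (⟨q, by omega⟩ : Fin (q + 1))))) =
      info (path (q + 1)) (S (σ j).val) T ⟨q, by omega⟩ := by
    have h2 := info_iso f I T (e.symm (Sum.inl (j, (⟨q, by omega⟩ : Fin (q + 1)))))
    have h3 : f (e.symm (Sum.inl (j, (⟨q, by omega⟩ : Fin (q + 1))))) =
        Sum.inl (j, (⟨q, by omega⟩ : Fin (q + 1))) := e.apply_symm_apply _
    rw [h3, info_spider m (q + 1) k I j T ⟨q, by omega⟩ hT] at h2
    exact h2
  have h4 : (F (info G (fun v => I (e v)) T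
      (e.symm (Sum.inl (j, (⟨q, by omega⟩ : Fin (q + 1))))))).1 = !b := hub
  rw [h1] at h4
  have h5 : (F (info (path (q + 1)) (S (σ j).val) T ⟨q, by omega⟩)).1 = b := hb j
  rw [h5] at h4
  cases b <;> simp at h4

/-! ### Random bits -/

/-- the number of the assignments of bits that are constant on `S` -/
theorem card_const {n : ℕ} (S : Set (Fin n)) (m : ℕ) (hS : m ≤ S.ncard) (b : Bool) :
    Nat.card {r : Fin n → Fin 1 → Bool // ∀ u ∈ S, r u 0 = b} * 2 ^ m ≤ 2 ^ n := by
  classical
  have h1 : Nat.card {r : Fin n → Fin 1 → Bool // ∀ u ∈ S, r u 0 = b} =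
      (Fintype.piFinset (fun u : Fin n => if u ∈ S then ({fun _ => b} : Finset (Fin 1 → Bool))
        else Finset.univ)).card := by
    rw [Nat.card_eq_fintype_card, Fintype.card_subtype]
    congr 1
    ext r
    simp only [Finset.mem_filter, Finset.mem_univ, true_and, Fintype.mem_piFinset]
    constructor
    · intro h u
      by_cases hu : u ∈ S
      · simp only [hu, if_true, Finset.mem_singleton]
        funext i
        rw [Subsingleton.elim i 0, h u hu]
      · simp [hu]
    · intro h u hu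
      have := h u
      simp only [hu, if_true, Finset.mem_singleton] at this
      rw [this]
  have h2 : ∀ u : Fin n, (if u ∈ S then ({fun _ => b} : Finset (Fin 1 → Bool))
        else Finset.univ).card * (if u ∈ S then 2 else 1) = 2 := by
    intro u
    by_cases hu : u ∈ S
    · simp [hu]
    · simp [hu]
  have h3 : ∏ u : Fin n, (if u ∈ S then 2 else 1) = 2 ^ S.ncard := by
    rw [Finset.prod_ite, Finset.prod_const_one, mul_one, Finset.prod_const]
    congr 1
    rw [Set.ncard_eq_toFinset_card']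
    congr 1
    ext u
    simp
  rw [h1, Fintype.card_piFinset]
  calc _ ≤ (∏ u : Fin n, (if u ∈ S then ({fun _ => b} : Finset (Fin 1 → Bool))
        else Finset.univ).card) * 2 ^ S.ncard :=
        Nat.mul_le_mul_left _ (Nat.pow_le_pow_right (by norm_num) hS)
    _ = 2 ^ n := by
        rw [← h3, ← Finset.prod_mul_distrib, Finset.prod_congr rfl (fun u _ => h2 u)]
        simp

/-- few assignments of bits are not split -/
theorem card_bad {n : ℕ} (G : SimpleGraph (Fin n)) (t m : ℕ) :
    Nat.card {r : Fin n → Fin 1 → Bool // ¬ Split G t m (fun v => r v 0)} * 2 ^ m ≤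
      2 * n * 2 ^ n := by
  classical
  have h1 : ∀ r : Fin n → Fin 1 → Bool, ¬ Split G t m (fun v => r v 0) →
      ∃ (v : Fin n) (b : Bool), m ≤ (sphere G t v).ncard ∧ ∀ u ∈ sphere G t v, r u 0 = b := by
    intro r hr
    unfold Split at hr
    push Not at hr
    obtain ⟨v, hv, b, hb⟩ := hr
    refine ⟨v, !b, hv, fun u hu => ?_⟩
    have := hb u hu
    revert this
    cases r u 0 <;> cases b <;> simp
  have h2 : Nat.card {r : Fin n → Fin 1 → Bool // ¬ Split G t m (fun v => r v 0)} ≤
      ∑ vb : Fin n × Bool, (if m ≤ (sphere G t vb.1).ncard then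
        Nat.card {r : Fin n → Fin 1 → Bool // ∀ u ∈ sphere G t vb.1, r u 0 = vb.2} else 0) := by
    rw [Nat.card_eq_fintype_card, Fintype.card_subtype]
    have h3 : (Finset.univ.filter fun r : Fin n → Fin 1 → Bool =>
        ¬ Split G t m (fun v => r v 0)) ⊆ (Finset.univ : Finset (Fin n × Bool)).biUnion
        (fun vb => Finset.univ.filter fun r : Fin n → Fin 1 → Bool =>
          m ≤ (sphere G t vb.1).ncard ∧ ∀ u ∈ sphere G t vb.1, r u 0 = vb.2) := by
      intro r hr
      rw [Finset.mem_filter] at hr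
      obtain ⟨v, b, h4, h5⟩ := h1 r hr.2
      rw [Finset.mem_biUnion]
      exact ⟨(v, b), Finset.mem_univ _, by
        rw [Finset.mem_filter]
        exact ⟨Finset.mem_univ _, h4, h5⟩⟩
    refine (Finset.card_le_card h3).trans (Finset.card_biUnion_le.trans ?_)
    apply Finset.sum_le_sum
    intro vb _
    by_cases h4 : m ≤ (sphere G t vb.1).ncard
    · rw [if_pos h4, Nat.card_eq_fintype_card, Fintype.card_subtype]
      apply Finset.card_le_card
      intro r
      rw [Finset.mem_filter, Finset.mem_filter]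
      exact fun h => ⟨h.1, h.2.2⟩
    · rw [if_neg h4]
      rw [Finset.card_eq_zero.2]
      rw [Finset.filter_eq_empty_iff]
      intro r _ h
      exact h4 h.1
  calc _ ≤ (∑ vb : Fin n × Bool, (if m ≤ (sphere G t vb.1).ncard then
        Nat.card {r : Fin n → Fin 1 → Bool // ∀ u ∈ sphere G t vb.1, r u 0 = vb.2} else 0)) *
        2 ^ m := Nat.mul_le_mul_right _ h2
    _ = ∑ vb : Fin n × Bool, (if m ≤ (sphere G t vb.1).ncard then
        Nat.card {r : Fin n → Fin 1 → Bool // ∀ u ∈ sphere G t vb.1, r u 0 = vb.2} else 0) *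
        2 ^ m := Finset.sum_mul _ _ _
    _ ≤ ∑ _vb : Fin n × Bool, 2 ^ n := by
        apply Finset.sum_le_sum
        intro vb _
        by_cases h4 : m ≤ (sphere G t vb.1).ncard
        · rw [if_pos h4]
          exact card_const _ m h4 vb.2
        · rw [if_neg h4]
          simp
    _ = 2 * n * 2 ^ n := by
        rw [Finset.sum_const, Finset.card_univ, Fintype.card_prod, Fintype.card_fin,
          Fintype.card_bool, smul_eq_mul]
        ring

theorem card_cube (n : ℕ) : Nat.card (Fin n → Fin 1 → Bool) = 2 ^ n := by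
  rw [Nat.card_eq_fintype_card]
  simp

theorem log_bound (n d : ℕ) (h : d + 3 ≤ Nat.log 2 n) :
    2 * n * n ^ d ≤ 2 ^ (Nat.log 2 n ^ 2 + 1) := by
  have h1 : n < 2 ^ (Nat.log 2 n + 1) := Nat.lt_pow_succ_log_self (by norm_num) n
  have h2 : n ^ (d + 1) ≤ 2 ^ ((Nat.log 2 n + 1) * (d + 1)) := by
    rw [pow_mul]
    exact Nat.pow_le_pow_left h1.le _
  have h3 : (Nat.log 2 n + 1) * (d + 1) ≤ Nat.log 2 n ^ 2 := by
    obtain ⟨a, ha⟩ := Nat.exists_eq_add_of_le h
    rw [ha]
    nlinarith
  calc 2 * n * n ^ d = n ^ (d + 1) * 2 := by ring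
    _ ≤ 2 ^ ((Nat.log 2 n + 1) * (d + 1)) * 2 := Nat.mul_le_mul_right _ h2
    _ ≤ 2 ^ (Nat.log 2 n ^ 2) * 2 :=
        Nat.mul_le_mul_right _ (Nat.pow_le_pow_right (by norm_num) h3)
    _ = 2 ^ (Nat.log 2 n ^ 2 + 1) := (pow_succ 2 (Nat.log 2 n ^ 2)).symm

/-- one round is enough for randomized algorithms -/
theorem rand_upper (C c d n : ℕ) (hn : n ≠ 0) (h : d + 3 ≤ Nat.log 2 n) :
    RandSolves (splitting C) c d n 1 := by
  classical
  refine ⟨1, fun s => ((s.1 : ℕ × (Fin 1 → Bool)).2 0, decide s.2.Nonempty), ?_⟩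
  intro G id _
  have hval : ∀ r : Fin n → Fin 1 → Bool, (splitting C).valid n G (fun v =>
      (((info G (fun u => (id u, r u)) 1 v).1 : ℕ × (Fin 1 → Bool)).2 0,
      decide (info G (fun u => (id u, r u)) 1 v).2.Nonempty)) ↔
      Split G (Nat.log 2 n ^ C + 1) (Nat.log 2 n ^ 2 + 1) (fun v => r v 0) := by
    intro r
    constructor
    · intro h1
      exact h1.1
    · intro h1
      refine ⟨h1, fun v => ?_⟩
      show decide (info G (fun u => (id u, r u)) 1 v).2.Nonempty = true ↔ _
      rw [decide_eq_true_iff]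
      constructor
      · rintro ⟨s, u, hu, -⟩
        exact ⟨u, hu⟩
      · rintro ⟨u, hu⟩
        exact ⟨_, u, hu, rfl⟩
  have h1 := card_bad G (Nat.log 2 n ^ C + 1) (Nat.log 2 n ^ 2 + 1)
  have h2 : Nat.card {r : Fin n → Fin 1 → Bool // (splitting C).valid n G (fun v =>
      (((info G (fun u => (id u, r u)) 1 v).1 : ℕ × (Fin 1 → Bool)).2 0,
      decide (info G (fun u => (id u, r u)) 1 v).2.Nonempty))} +
      Nat.card {r : Fin n → Fin 1 → Bool //
        ¬ Split G (Nat.log 2 n ^ C + 1) (Nat.log 2 n ^ 2 + 1) (fun v => r v 0)} = 2 ^ n := by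
    rw [Nat.card_congr (Equiv.subtypeEquivRight hval), ← card_cube n,
      Nat.card_eq_fintype_card, Nat.card_eq_fintype_card, Nat.card_eq_fintype_card,
      Fintype.card_subtype_compl]
    exact Nat.add_sub_cancel' (Fintype.card_subtype_le _)
  have h3 := log_bound n d h
  set g : ℕ := Nat.card {r : Fin n → Fin 1 → Bool // (splitting C).valid n G (fun v =>
      (((info G (fun u => (id u, r u)) 1 v).1 : ℕ × (Fin 1 → Bool)).2 0,
      decide (info G (fun u => (id u, r u)) 1 v).2.Nonempty))} with hg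
  set bad : ℕ := Nat.card {r : Fin n → Fin 1 → Bool //
        ¬ Split G (Nat.log 2 n ^ C + 1) (Nat.log 2 n ^ 2 + 1) (fun v => r v 0)} with hbad
  rw [card_cube]
  have hn0 : (0 : ℝ) < n := by exact_mod_cast Nat.pos_of_ne_zero hn
  have hnd : (0 : ℝ) < (n : ℝ) ^ d := by positivity
  have h2n : (0 : ℝ) < ((2 ^ n : ℕ) : ℝ) := by positivity
  have h4 : bad * n ^ d ≤ 2 ^ n := by
    have h5 : bad * (2 * n * n ^ d) ≤ 2 * n * 2 ^ n :=
      (Nat.mul_le_mul_left _ h3).trans h1
    have h6 : (2 * n) * (bad * n ^ d) ≤ (2 * n) * 2 ^ n := by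
      calc (2 * n) * (bad * n ^ d) = bad * (2 * n * n ^ d) := by ring
        _ ≤ _ := h5
    exact Nat.le_of_mul_le_mul_left h6 (by omega)
  rw [le_div_iff₀ h2n]
  have h7 : (g : ℝ) = (2 ^ n : ℕ) - bad := by
    rw [← h2]
    push_cast
    ring
  show (1 - 1 / (n : ℝ) ^ d) * ((2 ^ n : ℕ) : ℝ) ≤ (g : ℝ)
  rw [h7, sub_mul, one_mul]
  have h8 : (bad : ℝ) ≤ 1 / (n : ℝ) ^ d * ((2 ^ n : ℕ) : ℝ) := by
    rw [one_div, inv_mul_eq_div, le_div_iff₀ hnd]
    exact_mod_cast h4
  linarith

/-- without any round a node does not know whether it has a neighbour -/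
theorem rand_lower (C c d n : ℕ) (hc : 1 ≤ c) (hd : 1 ≤ d) (hn : 3 ≤ n) :
    ¬ RandSolves (splitting C) c d n 0 := by
  classical
  rintro ⟨b, F, hF⟩
  have hid : IsID n c (fun v => v.val) := by
    refine ⟨Fin.val_injective, fun v => ?_⟩
    calc v.val < n := v.isLt
      _ = n ^ 1 := (pow_one n).symm
      _ ≤ n ^ c := Nat.pow_le_pow_right (by omega) hc
  have h1 := hF ⊥ _ hid
  have h2 := hF ⊤ _ hid
  set N : ℕ := Nat.card (Fin n → Fin b → Bool) with hN
  set g1 : ℕ := Nat.card {r : Fin n → Fin b → Bool // (splitting C).valid n ⊥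
    (fun v => F (info ⊥ (fun u : Fin n => (u.val, r u)) 0 v))} with hg1
  set g2 : ℕ := Nat.card {r : Fin n → Fin b → Bool // (splitting C).valid n ⊤
    (fun v => F (info ⊤ (fun u : Fin n => (u.val, r u)) 0 v))} with hg2
  have hN0 : 0 < N := Nat.card_pos
  have hle : g1 + g2 ≤ N := by
    rw [hg1, hg2, hN, Nat.card_eq_fintype_card, Nat.card_eq_fintype_card,
      Nat.card_eq_fintype_card, Fintype.card_subtype, Fintype.card_subtype,
      ← Finset.card_union_of_disjoint, ← Finset.card_univ]
    · exact Finset.card_le_card (Finset.subset_univ _)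
    · rw [Finset.disjoint_left]
      intro r hr1 hr2
      rw [Finset.mem_filter] at hr1 hr2
      have h3 := (hr1.2.2 ⟨0, by omega⟩)
      have h4 := (hr2.2.2 ⟨0, by omega⟩)
      have h5 : (F (info (⊤ : SimpleGraph (Fin n)) (fun u : Fin n => (u.val, r u)) 0
          ⟨0, by omega⟩)).2 = true := by
        rw [h4]
        refine ⟨⟨1, by omega⟩, ?_⟩
        rw [SimpleGraph.top_adj]
        intro h
        have := congrArg Fin.val h
        simp at this
      have h6 : (F (info (⊥ : SimpleGraph (Fin n)) (fun u : Fin n => (u.val, r u)) 0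
          ⟨0, by omega⟩)).2 = true := h5
      obtain ⟨u, hu⟩ := h3.1 h6
      exact hu
  have hn1 : (1 : ℝ) / (n : ℝ) ^ d < 1 / 2 := by
    apply one_div_lt_one_div_of_lt (by norm_num)
    have h3 : n ≤ n ^ d := Nat.le_self_pow (by omega) n
    have h4 : 3 ≤ n ^ d := le_trans hn h3
    have h5 : (3 : ℝ) ≤ (n : ℝ) ^ d := by exact_mod_cast h4
    linarith
  have hN1 : (0 : ℝ) < N := by exact_mod_cast hN0
  have h3 : (1 : ℝ) / 2 < (g1 : ℝ) / N := by linarith
  have h4 : (1 : ℝ) / 2 < (g2 : ℝ) / N := by linarith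
  have h5 : (1 : ℝ) < ((g1 + g2 : ℕ) : ℝ) / N := by
    push_cast
    rw [add_div]
    linarith
  rw [lt_div_iff₀ hN1, one_mul] at h5
  have h6 : N < g1 + g2 := by exact_mod_cast h5
  omega

/-! ### `n` rounds are enough for deterministic algorithms -/

/-- the edges seen, as pairs of identifiers -/
def edges : (t : ℕ) → Info ℕ t → Set (ℕ × ℕ)
  | 0, _ => ∅
  | t + 1, s => edges t s.1 ∪ {e | ∃ s' ∈ s.2, e ∈ edges t s'} ∪
      {e | e.1 = root t s.1 ∧ ∃ s' ∈ s.2, e.2 = root t s'}

theorem mem_edges {V : Type} (G : SimpleGraph V) (x : V → ℕ) (t : ℕ) (v : V) (e : ℕ × ℕ) :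
    e ∈ edges t (info G x t v) ↔
      ∃ u w, G.Adj u w ∧ (∃ p : G.Walk v u, p.length < t) ∧ e = (x u, x w) := by
  induction t generalizing v with
  | zero =>
    constructor
    · intro h
      exact absurd h (Set.notMem_empty _)
    · rintro ⟨u, w, _, ⟨p, hp⟩, _⟩
      omega
  | succ t ih =>
    show ((e ∈ edges t (info G x t v) ∨ ∃ s', (∃ u, G.Adj v u ∧ info G x t u = s') ∧
      e ∈ edges t s') ∨ (e.1 = root t (info G x t v) ∧
      ∃ s', (∃ u, G.Adj v u ∧ info G x t u = s') ∧ e.2 = root t s')) ↔ _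
    rw [ih, root_info]
    constructor
    · rintro ((⟨u, w, h, ⟨p, hp⟩, rfl⟩ | ⟨s', ⟨u, hu, rfl⟩, hs⟩) | ⟨h1, s', ⟨w, hw, rfl⟩, h2⟩)
      · exact ⟨u, w, h, ⟨p, by omega⟩, rfl⟩
      · rw [ih] at hs
        obtain ⟨u', w, h, ⟨p, hp⟩, rfl⟩ := hs
        refine ⟨u', w, h, ⟨SimpleGraph.Walk.cons hu p, ?_⟩, rfl⟩
        rw [SimpleGraph.Walk.length_cons]
        omega
      · rw [root_info] at h2
        refine ⟨v, w, hw, ⟨SimpleGraph.Walk.nil, by simp⟩, ?_⟩
        rw [← h1, ← h2]
    · rintro ⟨u, w, h, ⟨p, hp⟩, rfl⟩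
      cases p with
      | nil =>
        refine Or.inr ⟨rfl, _, ⟨w, h, rfl⟩, ?_⟩
        rw [root_info]
      | @cons _ v' _ h' p =>
        refine Or.inl (Or.inr ⟨_, ⟨v', h', rfl⟩, ?_⟩)
        rw [ih]
        rw [SimpleGraph.Walk.length_cons] at hp
        exact ⟨u, w, h, ⟨p, by omega⟩, rfl⟩

/-- the graph seen, on the identifiers -/
def seen (t : ℕ) (s : Info ℕ t) : SimpleGraph ℕ := SimpleGraph.fromRel (fun a b => (a, b) ∈ edges t s)

theorem seen_adj {n : ℕ} (G : SimpleGraph (Fin n)) (id : Fin n → ℕ) (hid : Function.Injective id)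
    (v : Fin n) (a b : ℕ) : (seen n (info G id n v)).Adj a b ↔
      ∃ u w, G.Adj u w ∧ G.Reachable v u ∧ a = id u ∧ b = id w := by
  have key : ∀ a b, (a, b) ∈ edges n (info G id n v) ↔
      ∃ u w, G.Adj u w ∧ G.Reachable v u ∧ a = id u ∧ b = id w := by
    intro a b
    rw [mem_edges]
    constructor
    · rintro ⟨u, w, h, ⟨p, _⟩, he⟩
      rw [Prod.mk.injEq] at he
      exact ⟨u, w, h, ⟨p⟩, he.1, he.2⟩
    · rintro ⟨u, w, h, hr, rfl, rfl⟩
      obtain ⟨p, hp⟩ := hr.exists_isPath
      refine ⟨u, w, h, ⟨p, ?_⟩, rfl⟩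
      have := hp.length_lt
      simpa using this
  unfold seen
  rw [SimpleGraph.fromRel_adj, key, key]
  constructor
  · rintro ⟨_, h | ⟨u, w, h, hr, rfl, rfl⟩⟩
    · exact h
    · exact ⟨w, u, h.symm, hr.trans h.reachable, rfl, rfl⟩
  · rintro ⟨u, w, h, hr, rfl, rfl⟩
    exact ⟨fun he => h.ne (hid he), Or.inl ⟨u, w, h, hr, rfl, rfl⟩⟩

theorem seen_eq {n : ℕ} (G : SimpleGraph (Fin n)) (id : Fin n → ℕ) (hid : Function.Injective id)
    (v v' : Fin n) (h : G.Reachable v v') :
    seen n (info G id n v) = seen n (info G id n v') := by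
  ext a b
  rw [seen_adj G id hid, seen_adj G id hid]
  constructor
  · rintro ⟨u, w, h1, h2, h3⟩
    exact ⟨u, w, h1, h.symm.trans h2, h3⟩
  · rintro ⟨u, w, h1, h2, h3⟩
    exact ⟨u, w, h1, h.trans h2, h3⟩

theorem walk_of_seen {n : ℕ} (G : SimpleGraph (Fin n)) (id : Fin n → ℕ)
    (hid : Function.Injective id) (v : Fin n) (a b : ℕ)
    (p : (seen n (info G id n v)).Walk a b) (u : Fin n) (hu : G.Reachable v u) (ha : a = id u) :
    ∃ w, id w = b ∧ ∃ p' : G.Walk u w, p'.length = p.length := by
  induction p generalizing u with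
  | nil => exact ⟨u, ha.symm, SimpleGraph.Walk.nil, rfl⟩
  | @cons a c b h p ih =>
    rw [seen_adj G id hid] at h
    obtain ⟨u', w, h1, h2, h3, h4⟩ := h
    have h5 : u = u' := hid (ha.symm.trans h3)
    subst h5
    obtain ⟨w', h6, p', h7⟩ := ih w (h2.trans h1.reachable) h4
    exact ⟨w', h6, SimpleGraph.Walk.cons h1 p', by
      rw [SimpleGraph.Walk.length_cons, SimpleGraph.Walk.length_cons, h7]⟩

theorem seen_of_walk {n : ℕ} (G : SimpleGraph (Fin n)) (id : Fin n → ℕ)
    (hid : Function.Injective id) (v : Fin n) (u w : Fin n) (p : G.Walk u w)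
    (hu : G.Reachable v u) :
    ∃ p' : (seen n (info G id n v)).Walk (id u) (id w), p'.length = p.length := by
  induction p with
  | nil => exact ⟨SimpleGraph.Walk.nil, rfl⟩
  | @cons u c w h p ih =>
    obtain ⟨p', hp'⟩ := ih (hu.trans h.reachable)
    have h1 : (seen n (info G id n v)).Adj (id u) (id c) := by
      rw [seen_adj G id hid]
      exact ⟨u, c, h, hu, rfl, rfl⟩
    exact ⟨SimpleGraph.Walk.cons h1 p', by
      rw [SimpleGraph.Walk.length_cons, SimpleGraph.Walk.length_cons, hp']⟩

theorem sphere_seen {n : ℕ} (G : SimpleGraph (Fin n)) (id : Fin n → ℕ)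
    (hid : Function.Injective id) (v : Fin n) (u : Fin n) (hu : G.Reachable v u) (t : ℕ) :
    sphere (seen n (info G id n v)) (t + 1) (id u) = id '' sphere G (t + 1) u := by
  have key : ∀ (k : ℕ) (b : ℕ), (∃ p : (seen n (info G id n v)).Walk (id u) b, p.length ≤ k) ↔
      ∃ w, id w = b ∧ ∃ p : G.Walk u w, p.length ≤ k := by
    intro k b
    constructor
    · rintro ⟨p, hp⟩
      obtain ⟨w, h1, p', h2⟩ := walk_of_seen G id hid v _ b p u hu rfl
      exact ⟨w, h1, p', by omega⟩
    · rintro ⟨w, rfl, p, hp⟩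
      obtain ⟨p', h2⟩ := seen_of_walk G id hid v u w p hu
      exact ⟨p', by omega⟩
  ext b
  rw [mem_sphere_succ, key, key]
  constructor
  · rintro ⟨⟨w, rfl, h1⟩, h2⟩
    refine ⟨w, ?_, rfl⟩
    rw [mem_sphere_succ]
    exact ⟨h1, fun h => h2 ⟨w, rfl, h⟩⟩
  · rintro ⟨w, hw, rfl⟩
    rw [mem_sphere_succ] at hw
    refine ⟨⟨w, rfl, hw.1⟩, ?_⟩
    rintro ⟨w', h1, h2⟩
    rw [hid h1] at h2
    exact hw.2 h2

theorem sphere_isolated {n : ℕ} (G : SimpleGraph (Fin n)) (id : Fin n → ℕ)
    (hid : Function.Injective id) (v : Fin n) (a : ℕ)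
    (ha : ¬ ∃ u, G.Reachable v u ∧ a = id u) (t : ℕ) :
    sphere (seen n (info G id n v)) (t + 1) a = ∅ := by
  rw [Set.eq_empty_iff_forall_notMem]
  intro b hb
  rw [mem_sphere_succ] at hb
  obtain ⟨⟨p, hp⟩, h⟩ := hb
  cases p with
  | nil => exact h ⟨SimpleGraph.Walk.nil, by simp⟩
  | cons h1 p =>
    rw [seen_adj G id hid] at h1
    obtain ⟨u, w, -, h2, h3, -⟩ := h1
    exact ha ⟨u, h2, h3⟩

open Classical in
/-- a solution of the splitting problem on a graph, if there is one -/
noncomputable def sol (t m : ℕ) (H : SimpleGraph ℕ) : ℕ → Bool :=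
  if h : ∃ f, Split H t m f then h.choose else fun _ => false

open Classical in
theorem det_upper (C c n : ℕ) (h : 3 ≤ Nat.log 2 n) :
    DetSolves (splitting C) c n n := by
  obtain ⟨q, hq⟩ : ∃ q, q = Nat.log 2 n ^ C := ⟨_, rfl⟩
  obtain ⟨m, hm⟩ : ∃ m, m = Nat.log 2 n ^ 2 + 1 := ⟨_, rfl⟩
  refine ⟨fun s => (sol (q + 1) m (seen n s) (root n s), decide (∃ b, (seen n s).Adj (root n s) b)),
    ?_⟩
  intro G id hid
  -- there is a solution
  have hex : ∃ y : Fin n → Bool, Split G (q + 1) m y := by
    by_contra hcon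
    push Not at hcon
    have h1 := card_bad G (q + 1) m
    have h2 : Nat.card {r : Fin n → Fin 1 → Bool // ¬ Split G (q + 1) m (fun v => r v 0)} =
        2 ^ n := by
      rw [← card_cube n]
      apply Nat.card_congr
      exact Equiv.subtypeUnivEquiv fun r => hcon _
    rw [h2, mul_comm] at h1
    have h3 := Nat.le_of_mul_le_mul_right h1 (by positivity)
    have h4 : n < 2 ^ (Nat.log 2 n + 1) := Nat.lt_pow_succ_log_self (by norm_num) n
    have h5 : 2 ^ (Nat.log 2 n + 2) ≤ 2 ^ m := by
      apply Nat.pow_le_pow_right (by norm_num)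
      rw [hm]
      nlinarith
    rw [pow_succ] at h5
    omega
  obtain ⟨y, hy⟩ := hex
  -- hence there is one for the graph seen
  have hsol : ∀ v, Split (seen n (info G id n v)) (q + 1) m
      (sol (q + 1) m (seen n (info G id n v))) := by
    intro v
    have hex : ∃ f, Split (seen n (info G id n v)) (q + 1) m f := by
      refine ⟨fun a => if h : ∃ u, id u = a then y h.choose else false, ?_⟩
      intro a ha b
      by_cases hau : ∃ u, G.Reachable v u ∧ a = id u
      · obtain ⟨u, hu, rfl⟩ := hau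
        rw [sphere_seen G id hid.1 v u hu q] at ha ⊢
        rw [Set.ncard_image_of_injective _ hid.1] at ha
        obtain ⟨w, hw, hb⟩ := hy u ha b
        refine ⟨id w, ⟨w, hw, rfl⟩, ?_⟩
        have h1 : ∃ u, id u = id w := ⟨w, rfl⟩
        have h2 : h1.choose = w := hid.1 h1.choose_spec
        simp only [h1, dif_pos]
        rw [← hb]
        congr 1
      · rw [sphere_isolated G id hid.1 v a hau q, Set.ncard_empty] at ha
        omega
    unfold sol
    rw [dif_pos hex]
    exact hex.choose_spec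
  show Split G (Nat.log 2 n ^ C + 1) (Nat.log 2 n ^ 2 + 1) _ ∧ _
  rw [← hq, ← hm]
  refine ⟨?_, ?_⟩
  · intro v hv b
    have h1 := hsol v (id v)
    rw [sphere_seen G id hid.1 v v (SimpleGraph.Reachable.refl v) q,
      Set.ncard_image_of_injective _ hid.1] at h1
    obtain ⟨a, ⟨u, hu, rfl⟩, hb⟩ := h1 hv b
    refine ⟨u, hu, ?_⟩
    show sol (q + 1) m (seen n (info G id n u)) (root n (info G id n u)) = b
    have h2 : G.Reachable v u := by
      rw [mem_sphere_succ] at hu
      obtain ⟨⟨p, _⟩, _⟩ := hu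
      exact ⟨p⟩
    rw [root_info, ← seen_eq G id hid.1 v u h2]
    exact hb
  · intro v
    show decide (∃ b, (seen n (info G id n v)).Adj (root n (info G id n v)) b) = true ↔ _
    rw [decide_eq_true_iff, root_info]
    constructor
    · rintro ⟨b, hb⟩
      rw [seen_adj G id hid.1] at hb
      obtain ⟨u, w, h1, -, h3, -⟩ := hb
      rw [hid.1 h3]
      exact ⟨w, h1⟩
    · rintro ⟨w, hw⟩
      refine ⟨id w, ?_⟩
      rw [seen_adj G id hid.1]
      exact ⟨v, w, hw, SimpleGraph.Reachable.refl v, rfl, rfl⟩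

/-! ### The result -/

theorem large (C : ℕ) : ∀ᶠ n : ℕ in atTop,
    (Nat.log 2 n ^ 2 + 1) * (Nat.log 2 n ^ C + 1) + 1 ≤ n := by
  have h1 : ∀ᶠ L : ℕ in atTop, (L ^ 2 + 1) * (L ^ C + 1) + 1 ≤ 2 ^ L := by
    have h2 := tendsto_pow_const_div_const_pow_of_one_lt (C + 2) (show (1 : ℝ) < 2 by norm_num)
    have h3 := h2.eventually (gt_mem_nhds (show (0 : ℝ) < 1 / 5 by norm_num))
    filter_upwards [h3, eventually_ge_atTop 1] with L hL hL1
    rw [div_lt_iff₀ (by positivity)] at hL
    have h4 : (1 : ℝ) ≤ L := by exact_mod_cast hL1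
    have h5 : (1 : ℝ) ≤ (L : ℝ) ^ C := one_le_pow₀ h4
    have h6 : (1 : ℝ) ≤ (L : ℝ) ^ 2 := one_le_pow₀ h4
    have h7 : (L : ℝ) ^ (C + 2) = (L : ℝ) ^ C * (L : ℝ) ^ 2 := pow_add _ _ _
    have h8 : (((L ^ 2 + 1) * (L ^ C + 1) + 1 : ℕ) : ℝ) ≤ ((2 ^ L : ℕ) : ℝ) := by
      push_cast
      nlinarith
    exact_mod_cast h8
  have h2 : Tendsto (fun n : ℕ => Nat.log 2 n) atTop atTop := by
    rw [tendsto_atTop]
    intro b
    filter_upwards [eventually_ge_atTop (2 ^ b)] with n hn
    exact Nat.le_log_of_pow_le (by norm_num) hn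
  filter_upwards [h2.eventually h1, eventually_ne_atTop 0] with n hn hn0
  exact hn.trans (Nat.pow_log_le_self 2 hn0)

theorem tendsto_log : Tendsto (fun n : ℕ => Nat.log 2 n) atTop atTop := by
  rw [tendsto_atTop]
  intro b
  filter_upwards [eventually_ge_atTop (2 ^ b)] with n hn
  exact Nat.le_log_of_pow_le (by norm_num) hn

/-- **For every `C` there is a graph problem, with two bits of output per node, whose solutions can
be checked in `L ^ C + 1` rounds, `L = ⌊log₂ n⌋`, whose randomized complexity is one round, for every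
required probability of success `1 - 1 / n ^ d`, and whose deterministic complexity is at least
`L ^ C + 1` rounds.** So the gap between the deterministic and the randomized complexity of locally
checkable problems is not `O (log n ^ k)` for any `k`. -/
theorem result (C : ℕ) :
    ∃ P : GraphProblem (Bool × Bool), LocallyCheckable P ∧
      (∀ c, Checkable P c (fun n => Nat.log 2 n ^ C + 1)) ∧
      ∀ c, 2 ≤ c → ∀ d, 1 ≤ d → ∀ᶠ n : ℕ in atTop,
        (∃ T, DetSolves P c n T) ∧ randComplexity P c d n = 1 ∧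
        (Nat.log 2 n : ℝ) ^ C + 1 ≤
          (detComplexity P c n : ℝ) / (randComplexity P c d n : ℝ) := by
  refine ⟨splitting C, ⟨fun n => Nat.log 2 n ^ C + 1, ⟨C + 2, fun n => ?_⟩, checkable C⟩,
    checkable C, ?_⟩
  · have h1 : Nat.log 2 n ^ C ≤ (Nat.log 2 n + 1) ^ C := Nat.pow_le_pow_left (by omega) _
    have h2 : 1 ≤ (Nat.log 2 n + 1) ^ C := Nat.one_le_pow _ _ (by omega)
    have h3 : (Nat.log 2 n + 1) ^ C ≤ (Nat.log 2 n + 1) ^ (C + 2) :=
      Nat.pow_le_pow_right (by omega) (by omega)
    calc Nat.log 2 n ^ C + 1 ≤ 2 * (Nat.log 2 n + 1) ^ (C + 2) := by omega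
      _ ≤ (C + 2) * (Nat.log 2 n + 1) ^ (C + 2) := Nat.mul_le_mul_right _ (by omega)
  · intro c hc d hd
    filter_upwards [large C, tendsto_log.eventually (eventually_ge_atTop (d + 3)),
      eventually_ge_atTop 3] with n hn hL hn3
    have hdet : DetSolves (splitting C) c n n := det_upper C c n (by omega)
    have hrand : randComplexity (splitting C) c d n = 1 := by
      have h1 : RandSolves (splitting C) c d n 1 := rand_upper C c d n (by omega) hL
      have h2 : randComplexity (splitting C) c d n ≤ 1 := Nat.sInf_le h1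
      have h3 : randComplexity (splitting C) c d n ≠ 0 := by
        intro h0
        have h4 : RandSolves (splitting C) c d n (randComplexity (splitting C) c d n) :=
          Nat.sInf_mem (s := {T | RandSolves (splitting C) c d n T}) ⟨1, h1⟩
        rw [h0] at h4
        exact rand_lower C c d n (by omega) hd hn3 h4
      omega
    have hlow : Nat.log 2 n ^ C + 1 ≤ detComplexity (splitting C) c n := by
      by_contra hcon
      have h4 : DetSolves (splitting C) c n (detComplexity (splitting C) c n) :=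
        Nat.sInf_mem (s := {T | DetSolves (splitting C) c n T}) ⟨n, hdet⟩
      exact lower C c n _ hc (by omega) hn h4
    refine ⟨⟨n, hdet⟩, hrand, ?_⟩
    rw [hrand, Nat.cast_one, div_one]
    exact_mod_cast hlow

end Pool.Agent.Results.MP_559647_lc.GapUnbounded
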